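import Mathlib

/-!
Block BG: Bergman's gap for factorial languages.
-/

set_option autoImplicit false

namespace Pool.Agent.PH

/-- the words of length `n` -/
private def bgA {m : ℕ} (L : Set (List (Fin m))) (n : ℕ) : Set (List (Fin m)) :=
  {w | w ∈ L ∧ w.length = n}

/-- the words of length at most `n` -/
private def bgW {m : ℕ} (L : Set (List (Fin m))) (n : ℕ) : Set (List (Fin m)) :=
  {w | w ∈ L ∧ w.length ≤ n}

/-- the words which are extendable to the right arbitrarily far -/
private def bgT {m : ℕ} (L : Set (List (Fin m))) : Set (List (Fin m)) :=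
  {w | ∀ N : ℕ, ∃ v : List (Fin m), N ≤ v.length ∧ w ++ v ∈ L}

private theorem bg_A_fin {m : ℕ} (L : Set (List (Fin m))) (n : ℕ) : (bgA L n).Finite :=
  (List.finite_length_eq (Fin m) n).subset fun _ h => h.2

private theorem bg_W_fin {m : ℕ} (L : Set (List (Fin m))) (n : ℕ) : (bgW L n).Finite :=
  (List.finite_length_le (Fin m) n).subset fun _ h => h.2

private theorem bg_W_succ {m : ℕ} (L : Set (List (Fin m))) (n : ℕ) :
    (bgW L (n + 1)).ncard = (bgW L n).ncard + (bgA L (n + 1)).ncard := by
  rw [← Set.ncard_union_eq ?_ (bg_W_fin L n) (bg_A_fin L (n + 1))]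
  · congr 1
    ext w
    constructor
    · rintro ⟨h1, h2⟩
      rcases Nat.lt_or_ge n w.length with h | h
      · exact Or.inr ⟨h1, by omega⟩
      · exact Or.inl ⟨h1, h⟩
    · rintro (⟨h1, h2⟩ | ⟨h1, h2⟩)
      · exact ⟨h1, by omega⟩
      · exact ⟨h1, by omega⟩
  · rw [Set.disjoint_left]
    rintro w ⟨-, h1⟩ ⟨-, h2⟩
    omega

private theorem bg_W_zero {m : ℕ} (L : Set (List (Fin m))) : bgW L 0 = bgA L 0 := by
  ext w
  constructor
  · rintro ⟨h1, h2⟩
    exact ⟨h1, by omega⟩
  · rintro ⟨h1, h2⟩
    exact ⟨h1, by omega⟩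

private theorem bg_T_factor {m : ℕ} (L : Set (List (Fin m)))
    (hL : ∀ u v w : List (Fin m), u ++ v ++ w ∈ L → v ∈ L) (u v w : List (Fin m))
    (h : u ++ v ++ w ∈ bgT L) : v ∈ bgT L := by
  intro N
  obtain ⟨x, hx1, hx2⟩ := h N
  refine ⟨w ++ x, by rw [List.length_append]; omega, ?_⟩
  apply hL u (v ++ (w ++ x)) []
  rw [List.append_nil]
  simpa [List.append_assoc] using hx2

private theorem bg_T_ext {m : ℕ} (L : Set (List (Fin m))) {w : List (Fin m)} (h : w ∈ bgT L) :
    ∃ a : Fin m, w ++ [a] ∈ bgT L := by
  by_contra hcon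
  push Not at hcon
  have h1 : ∀ a : Fin m, ∃ N : ℕ, ∀ v : List (Fin m), N ≤ v.length → w ++ [a] ++ v ∉ L := by
    intro a
    have h2 := hcon a
    by_contra h3
    push Not at h3
    exact h2 h3
  choose N hN using h1
  obtain ⟨v, hv1, hv2⟩ := h ((∑ a, N a) + 1)
  cases v with
  | nil =>
    rw [List.length_nil] at hv1
    omega
  | cons a v =>
    apply hN a v
    · rw [List.length_cons] at hv1
      have h4 : N a ≤ ∑ a, N a := Finset.single_le_sum (fun i _ => Nat.zero_le _) (Finset.mem_univ a)
      omega
    · have : w ++ [a] ++ v = w ++ a :: v := by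
        rw [List.append_assoc]
        rfl
      rw [this]
      exact hv2

private theorem bg_dropLast {m : ℕ} (L : Set (List (Fin m)))
    (hL : ∀ u v w : List (Fin m), u ++ v ++ w ∈ L → v ∈ L) (j : ℕ) :
    Set.MapsTo List.dropLast {w | w ∈ bgT L ∧ w.length = j + 1} {w | w ∈ bgT L ∧ w.length = j} := by
  rintro w ⟨h1, h2⟩
  have hne : w ≠ [] := by
    rintro rfl
    rw [List.length_nil] at h2
    omega
  refine ⟨?_, by rw [List.length_dropLast]; omega⟩
  apply bg_T_factor L hL [] w.dropLast [w.getLast hne]
  rw [List.nil_append, List.dropLast_append_getLast]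
  exact h1

/-- a plateau of the growth of the extendable words -/
private theorem bg_plateau {m : ℕ} (L : Set (List (Fin m))) (h1 : [] ∈ bgT L) (n : ℕ)
    (hn : ({w | w ∈ bgT L ∧ w.length = n} : Set (List (Fin m))).ncard ≤ n) :
    ∃ j < n, ({w | w ∈ bgT L ∧ w.length = j + 1} : Set (List (Fin m))).ncard ≤
      ({w | w ∈ bgT L ∧ w.length = j} : Set (List (Fin m))).ncard := by
  by_contra hcon
  push Not at hcon
  have h2 : ∀ j ≤ n, j + 1 ≤ ({w | w ∈ bgT L ∧ w.length = j} : Set (List (Fin m))).ncard := by
    intro j
    induction j with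
    | zero =>
      intro _
      have h3 : ({w | w ∈ bgT L ∧ w.length = 0} : Set (List (Fin m))).Finite :=
        (List.finite_length_eq (Fin m) 0).subset fun _ h => h.2
      rw [Nat.one_le_iff_ne_zero, Ne, Set.ncard_eq_zero h3]
      intro h4
      have h5 : ([] : List (Fin m)) ∈ (∅ : Set (List (Fin m))) := by
        rw [← h4]
        exact ⟨h1, rfl⟩
      exact h5
    | succ j ih =>
      intro hj
      have h3 := ih (by omega)
      have h4 := hcon j (by omega)
      omega
  have h3 := h2 n le_rfl
  omega

/-- after a plateau the extension is unique -/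
private theorem bg_unique {m : ℕ} (L : Set (List (Fin m)))
    (hL : ∀ u v w : List (Fin m), u ++ v ++ w ∈ L → v ∈ L) (j : ℕ)
    (hj : ({w | w ∈ bgT L ∧ w.length = j + 1} : Set (List (Fin m))).ncard ≤
      ({w | w ∈ bgT L ∧ w.length = j} : Set (List (Fin m))).ncard) (u : List (Fin m))
    (hu : u.length = j) (a b : Fin m) (ha : u ++ [a] ∈ bgT L) (hb : u ++ [b] ∈ bgT L) : a = b := by
  have hfin : ({w | w ∈ bgT L ∧ w.length = j + 1} : Set (List (Fin m))).Finite :=
    (List.finite_length_eq (Fin m) (j + 1)).subset fun _ h => h.2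
  have hsurj : Set.SurjOn List.dropLast {w | w ∈ bgT L ∧ w.length = j + 1}
      {w | w ∈ bgT L ∧ w.length = j} := by
    rintro w ⟨h1, h2⟩
    obtain ⟨c, hc⟩ := bg_T_ext L h1
    exact ⟨w ++ [c], ⟨hc, by rw [List.length_append, List.length_singleton, h2]⟩,
      List.dropLast_concat⟩
  have himg : (List.dropLast '' {w | w ∈ bgT L ∧ w.length = j + 1} : Set (List (Fin m))) =
      {w | w ∈ bgT L ∧ w.length = j} :=
    Set.Subset.antisymm (bg_dropLast L hL j).image_subset hsurj
  have hinj : Set.InjOn List.dropLast {w : List (Fin m) | w ∈ bgT L ∧ w.length = j + 1} := by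
    apply Set.injOn_of_ncard_image_eq _ hfin
    apply le_antisymm (Set.ncard_image_le hfin)
    rw [himg]
    exact hj
  have h1 : u ++ [a] = u ++ [b] := by
    apply hinj
    · exact ⟨ha, by rw [List.length_append, List.length_singleton, hu]⟩
    · exact ⟨hb, by rw [List.length_append, List.length_singleton, hu]⟩
    · rw [List.dropLast_concat, List.dropLast_concat]
  have h2 := List.append_cancel_left h1
  exact List.head_eq_of_cons_eq h2

/-- the words are determined by the first and the last letters -/
private theorem bg_inj {m : ℕ} (L : Set (List (Fin m)))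
    (hL : ∀ u v w : List (Fin m), u ++ v ++ w ∈ L → v ∈ L) (j M : ℕ)
    (hu : ∀ u : List (Fin m), u.length = j → ∀ a b : Fin m, u ++ [a] ∈ bgT L → u ++ [b] ∈ bgT L →
      a = b)
    (hM : ∀ u : List (Fin m), u.length = j + 1 → u ∉ bgT L → ∀ v, u ++ v ∈ L → v.length < M)
    (s : ℕ) (w w' : List (Fin m)) (hw : w ∈ L) (hw' : w' ∈ L) (hs : w.length = s)
    (hs' : w'.length = s) (h1 : w.take j = w'.take j) (h2 : w.drop (s - M) = w'.drop (s - M)) :
    w = w' := by
  have hT : ∀ w : List (Fin m), w ∈ L → w.length = s → ∀ i, j ≤ i → (hi : i < w.length) →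
      i < s - M → (w.take i).drop (i - j) ++ [w[i]] ∈ bgT L := by
    intro w hw hs i hji hi hiM
    by_contra hcon
    have h3 := hM _ (by
      rw [List.length_append, List.length_singleton, List.length_drop, List.length_take]
      omega) hcon (w.drop (i + 1)) (by
      apply hL (w.take (i - j)) _ []
      rw [List.append_nil]
      have h4 : w.take (i - j) ++ ((w.take i).drop (i - j) ++ [w[i]] ++ w.drop (i + 1)) = w := by
        have h5 : w.take (i - j) = (w.take i).take (i - j) := by
          rw [List.take_take, min_eq_left (by omega)]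
        rw [h5, ← List.append_assoc, ← List.append_assoc, List.take_append_drop,
          List.take_append_getElem, List.take_append_drop]
      rw [h4]
      exact hw)
    rw [List.length_drop] at h3
    omega
  have h3 : ∀ i ≤ s - M, w.take i = w'.take i := by
    intro i
    induction i with
    | zero => intro _; rw [List.take_zero, List.take_zero]
    | succ i ih =>
      intro hi
      have h4 := ih (by omega)
      have hi1 : i < w.length := by omega
      have hi2 : i < w'.length := by omega
      rcases Nat.lt_or_ge i j with hij | hij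
      · have h5 := congrArg (List.take (i + 1)) h1
        rw [List.take_take, List.take_take, min_eq_left (by omega)] at h5
        exact h5
      · rw [← List.take_append_getElem hi1, ← List.take_append_getElem hi2, h4]
        congr 1
        have h5 := hT w hw hs i hij hi1 (by omega)
        have h6 := hT w' hw' hs' i hij hi2 (by omega)
        rw [h4] at h5
        have h7 := hu _ (by rw [List.length_drop, List.length_take]; omega) _ _ h5 h6
        rw [h7]
  have h4 := h3 (s - M) le_rfl
  rw [← List.take_append_drop (s - M) w, ← List.take_append_drop (s - M) w', h4, h2]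

/-- BLOCK BG. Bergman's gap. -/
theorem bg_main {m : ℕ} (L : Set (List (Fin m))) (h1 : [] ∈ L)
    (hL : ∀ u v w : List (Fin m), u ++ v ++ w ∈ L → v ∈ L) :
    (∃ K : ℕ, ∀ n : ℕ, Nat.card {w : List (Fin m) // w ∈ L ∧ w.length ≤ n} ≤ K) ∨
    (∃ K : ℕ, ∀ n : ℕ, n + 1 ≤ Nat.card {w : List (Fin m) // w ∈ L ∧ w.length ≤ n} ∧
      Nat.card {w : List (Fin m) // w ∈ L ∧ w.length ≤ n} ≤ K * (n + 1)) ∨
    (∀ n : ℕ, (n + 1) * (n + 2) ≤ 2 * Nat.card {w : List (Fin m) // w ∈ L ∧ w.length ≤ n}) := by
  classical
  have hcard : ∀ n, Nat.card {w : List (Fin m) // w ∈ L ∧ w.length ≤ n} = (bgW L n).ncard :=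
    fun n => rfl
  simp only [hcard]
  by_cases hz : ∃ n, (bgA L n).ncard = 0
  · -- the language is finite
    left
    obtain ⟨n, hn⟩ := hz
    rw [Set.ncard_eq_zero (bg_A_fin L n)] at hn
    refine ⟨({l : List (Fin m) | l.length ≤ n}).ncard, fun k => ?_⟩
    apply Set.ncard_le_ncard _ (List.finite_length_le (Fin m) n)
    rintro w ⟨hw, -⟩
    by_contra hcon
    have hlt : n ≤ w.length := by
      have : ¬ w.length ≤ n := hcon
      omega
    have h2 : w.take n ∈ bgA L n := by
      refine ⟨hL [] (w.take n) (w.drop n) ?_, by rw [List.length_take]; omega⟩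
      rw [List.nil_append, List.take_append_drop]
      exact hw
    rw [hn] at h2
    exact h2
  · right
    push Not at hz
    have hpos : ∀ n, 1 ≤ (bgA L n).ncard := fun n => Nat.one_le_iff_ne_zero.mpr (hz n)
    by_cases hlin : ∃ n, (bgA L n).ncard ≤ n
    · -- linear growth
      left
      obtain ⟨n, hn⟩ := hlin
      have hnil : [] ∈ bgT L := by
        intro N
        have h2 : (bgA L N).Nonempty := by
          rw [← Set.ncard_pos (bg_A_fin L N)]
          exact hpos N
        obtain ⟨v, hv1, hv2⟩ := h2
        exact ⟨v, hv2.ge, hv1⟩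
      obtain ⟨j, -, hj⟩ := bg_plateau L hnil n (by
        refine le_trans (Set.ncard_le_ncard ?_ (bg_A_fin L n)) hn
        rintro w ⟨hw, hw2⟩
        obtain ⟨v, -, hv⟩ := hw 0
        exact ⟨hL [] w v hv, hw2⟩)
      -- the bound for the extensions of the words which are not extendable
      have hN : ∀ u : List (Fin m), ∃ N : ℕ, u ∉ bgT L → ∀ v, u ++ v ∈ L → v.length < N := by
        intro u
        by_cases hu : u ∈ bgT L
        · exact ⟨0, fun h => absurd hu h⟩
        · have h2 : ¬ ∀ N : ℕ, ∃ v : List (Fin m), N ≤ v.length ∧ u ++ v ∈ L := hu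
          push Not at h2
          obtain ⟨N, hN⟩ := h2
          refine ⟨N, fun _ v hv => ?_⟩
          by_contra hcon
          exact hN v (not_lt.mp hcon) hv
      choose N hN using hN
      let M : ℕ := ∑ u ∈ (List.finite_length_eq (Fin m) (j + 1)).toFinset, N u
      have hM : ∀ u : List (Fin m), u.length = j + 1 → u ∉ bgT L → ∀ v, u ++ v ∈ L →
          v.length < M := by
        intro u hu huT v hv
        have h2 := hN u huT v hv
        have h3 : N u ≤ M := Finset.single_le_sum (f := N) (fun i _ => Nat.zero_le _)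
          (by rw [Set.Finite.mem_toFinset]; exact hu)
        omega
      let K : ℕ := (({l : List (Fin m) | l.length ≤ j}) ×ˢ
        ({l : List (Fin m) | l.length ≤ M})).ncard
      have hK : ∀ s, (bgA L s).ncard ≤ K := by
        intro s
        apply Set.ncard_le_ncard_of_injOn (fun w => (w.take j, w.drop (s - M)))
          (ht := (List.finite_length_le (Fin m) j).prod (List.finite_length_le (Fin m) M))
        · rintro w ⟨hw, hs⟩
          refine ⟨?_, ?_⟩
          · show (w.take j).length ≤ j
            rw [List.length_take]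
            omega
          · show (w.drop (s - M)).length ≤ M
            rw [List.length_drop]
            omega
        · rintro w ⟨hw, hs⟩ w' ⟨hw', hs'⟩ h
          have h2 : w.take j = w'.take j := congrArg Prod.fst h
          have h3 : w.drop (s - M) = w'.drop (s - M) := congrArg Prod.snd h
          exact bg_inj L hL j M (fun u hu a b ha hb => bg_unique L hL j hj u hu a b ha hb) hM s w w'
            hw hw' hs hs' h2 h3
      refine ⟨K, fun n => ?_⟩
      induction n with
      | zero =>
        rw [bg_W_zero]
        exact ⟨hpos 0, by rw [zero_add, mul_one]; exact hK 0⟩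
      | succ n ih =>
        rw [bg_W_succ]
        have h2 := hpos (n + 1)
        have h3 := hK (n + 1)
        refine ⟨by omega, ?_⟩
        calc (bgW L n).ncard + (bgA L (n + 1)).ncard ≤ K * (n + 1) + K := add_le_add ih.2 h3
          _ = K * (n + 1 + 1) := by ring
    · -- quadratic growth
      right
      push Not at hlin
      intro n
      induction n with
      | zero =>
        rw [bg_W_zero]
        have := hlin 0
        omega
      | succ n ih =>
        rw [bg_W_succ]
        have h2 := hlin (n + 1)
        nlinarith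

end Pool.Agent.PH
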